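import Pool.Agent.Helper54_FLX.All

/-!
# MP_5f32e0_gt: generic functions are Paneitz curvatures, and the exact threshold

`(S^4, g₀)` is the unit sphere of `ℝ^5`. We show that for every `α < 1` the functions which are
positive somewhere and are *not* the Paneitz curvature of a metric conformal to `g₀` form a nowhere
dense set in the `C^{1,α}` norm, and that this is false for `α = 1`: generic functions in this sense
are Paneitz curvatures if and only if they are positive somewhere (and then of at least `k` metrics,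
for each `k`), and `α = 1` is the exact threshold where the obstructions of Kazdan-Warner type become
stable.

More precisely, near a critical point `p` with `Q(p) > 0` (for instance a maximum point) every
smooth `Q` has a `C^{1,α}`-small change, supported in a given neighbourhood of `p`, to a function
`Q₁` such that all smooth functions in an `L²` neighbourhood of `Q₁` are Paneitz curvatures of at
least `k` metrics.

The proof (squad FLX: helper3, helper10, helper18, helper25, helper32, helper39, helper40, helper53,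
helper54, helper55, helper59, helper65, helper69, helper76, helper77, helper82, helper83, helper88).
`P u + 6 = Q e^{4u}` is written as a fixed point equation with the Green operator `K` of
`P = Δ² - 2Δ`, whose kernel is `-log (1 - <x,y>)`, and pulled back by the Moebius map `mob (s p)`,
which moves almost everything to `p`: `Q ∘ mob (s p)` tends to `Q(p)` in `L²` at the rate
`(1 - s)^(1 - η)`. To this we add `e β(<p,·>)`, `e = (1-s)^(1-2η)`, with a fixed even bump `β`; the
linearised operator `24 K` minus the projection to the first spherical harmonics is a contraction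
(`√7/3 < 1`) of `C(S^4)`, and the remaining five equations are solved by the Brouwer fixed point
theorem in the parameter `b` of the Moebius group: the vector `∫ β(<p, mob b y>) y dy` has a
nondegenerate zero at `b = 0`. The change of `Q` is `e β(<p, mob (-s p) ·>)`, which is small in
`C^{1,α}`, `α < 1`, and has support near `p`; the solution is `≈ log ((1+s)/(1-s)) / 2` at `p`, so
that the step can be repeated, with a new solution each time. For `α = 1` a function near `2 + x₅`
has a nondegenerate maximum and a nondegenerate minimum point and is increasing along the conformal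
vector field with these zeros, so the Kazdan-Warner identity excludes it.
-/

set_option autoImplicit false

open scoped InnerProductSpace Topology ContDiff Manifold
open MeasureTheory Filter Set

noncomputable section

namespace Pool.Agent.Results.MP_5f32e0_gt.GenericThreshold

open Pool.Agent.Helper42_Paneitz

/-- The derivative of `f : S^4 → ℝ` at `x` in the direction `v ∈ ℝ^5`: the derivative of the
extension of `f` to `ℝ^5 \ {0}` which is constant on rays. It depends only on the tangential part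
of `v`; for `f` smooth it is `<∇f(x), v>`, `∇f` the gradient on the sphere. -/
def deriv (f : S4 → ℝ) (x : S4) (v : E5) : ℝ := fderiv ℝ (radialExt f) (x : E5) v

/-- `‖f‖_{C^{1,α}} ≤ e`: `|f| ≤ e`, `|∇f| ≤ e` and `|∇f(x) - ∇f(y)| ≤ e |x - y|^α`. -/
def HolderLE (α e : ℝ) (f : S4 → ℝ) : Prop :=
  ∀ (x y : S4) (v : E5), |f x| ≤ e ∧ |deriv f x v| ≤ e * ‖v‖ ∧
    |deriv f x v - deriv f y v| ≤ e * ‖v‖ * dist x y ^ α

/-- The area measure of the unit sphere. -/
def area : Measure S4 := (volume : Measure E5).toSphere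

/-- Smooth functions on `S^4`. -/
def Smooth (f : S4 → ℝ) : Prop := ContMDiff (𝓡 4) 𝓘(ℝ, ℝ) ∞ f

/-- The equation `Δ² u - 2 Δ u = Q e^{4u} - 6` has at least `k` different smooth solutions, i.e.
`Q` is the Paneitz curvature of at least `k` metrics pointwise conformal to the round one. -/
def AtLeast (k : ℕ) (Q : S4 → ℝ) : Prop :=
  ∃ u : Fin k → S4 → ℝ, Function.Injective u ∧
    ∀ i, Smooth (u i) ∧ ∀ x, paneitz (u i) x = Q x * Real.exp (4 * u i x) - 6

/-- All smooth functions in some `L²` neighbourhood of `Q₁` (and so in some uniform neighbourhood)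
are Paneitz curvatures of at least `k` metrics. -/
def Stable (k : ℕ) (Q₁ : S4 → ℝ) : Prop :=
  ∃ δ : ℝ, 0 < δ ∧ ∀ Q₂ : S4 → ℝ, Smooth Q₂ → ∫ x, (Q₂ x - Q₁ x) ^ 2 ∂area ≤ δ → AtLeast k Q₂

open Pool.Agent.Helper82_Vir Pool.Agent.FLX Pool.Agent.FLX.H54 in
theorem atLeast_of_many {k : ℕ} {Q : S4 → ℝ} {p : S4} {B : ℝ} (h : Many k Q p B) :
    AtLeast k Q := by
  obtain ⟨u, hu, hs⟩ := h
  exact ⟨u, hu, fun i => ⟨contMDiff_of_sm (hs i).1.1, (hs i).1.2⟩⟩

open Pool.Agent.Helper82_Vir Pool.Agent.FLX Pool.Agent.FLX.H54 in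
theorem stable_of {k : ℕ} {Q₁ : S4 → ℝ} {p : S4} {δ B : ℝ} (hδ : 0 < δ)
    (h : ∀ Q₂ : S4 → ℝ, Sm Q₂ → N2 (fun x => Q₂ x - Q₁ x) < δ → Many k Q₂ p B) :
    Stable k Q₁ := by
  refine ⟨(δ / 2) ^ 2, by positivity, fun Q₂ hQ₂ hi => ?_⟩
  refine atLeast_of_many (h Q₂ (sm_of_contMDiff hQ₂) ?_)
  have h3 : N2 (fun x => Q₂ x - Q₁ x) ≤ δ / 2 := by
    unfold N2
    rw [Real.sqrt_le_left (by positivity)]
    exact hi
  linarith

open Pool.Agent.Helper82_Vir Pool.Agent.FLX Pool.Agent.FLX.H54 in
/-- (1) Let `0 ≤ α < 1`, `k ≥ 0`, `ε > 0` and let `Q` be smooth and positive somewhere. There is a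
smooth `Q₁` with `‖Q₁ - Q‖_{C^{1,α}} ≤ ε` such that all smooth functions in an `L²` neighbourhood of
`Q₁` (for instance all those with `|Q₂ - Q₁| ≤ δ'`) are Paneitz curvatures of at least `k` metrics
pointwise conformal to the round one.

(2) For `α = 1` this is false, even for one metric and without the neighbourhood: for some `δ > 0` no
smooth `Q` with `‖Q - (2 + x₅)‖_{C^{1,1}} ≤ δ` is a Paneitz curvature.

(3) If `p` is a critical point of `Q`, `Q(p) > 0` and `U` is a neighbourhood of `p`, then in (1) we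
can have `Q₁ = Q` outside `U`. -/
theorem result :
    (∀ (Q : S4 → ℝ) (k : ℕ) (α ε : ℝ), Smooth Q → (∃ x, 0 < Q x) → 0 ≤ α → α < 1 → 0 < ε →
      ∃ Q₁ : S4 → ℝ, Smooth Q₁ ∧ HolderLE α ε (fun x => Q₁ x - Q x) ∧ Stable k Q₁) ∧
    (∃ δ : ℝ, 0 < δ ∧ ∀ Q : S4 → ℝ, Smooth Q → HolderLE 1 δ (fun x => Q x - (2 + (x : E5) 4)) →
      ¬ IsPaneitzCurvature Q) ∧
    (∀ (Q : S4 → ℝ) (p : S4) (U : Set S4) (k : ℕ) (α ε : ℝ), Smooth Q →
      (∀ v, deriv Q p v = 0) → 0 < Q p → U ∈ 𝓝 p → 0 ≤ α → α < 1 → 0 < ε →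
      ∃ Q₁ : S4 → ℝ, Smooth Q₁ ∧ (∀ x, x ∉ U → Q₁ x = Q x) ∧
        HolderLE α ε (fun x => Q₁ x - Q x) ∧ Stable k Q₁) := by
  have h3 : ∀ (Q : S4 → ℝ) (p : S4) (U : Set S4) (k : ℕ) (α ε : ℝ), Smooth Q →
      (∀ v, deriv Q p v = 0) → 0 < Q p → U ∈ 𝓝 p → 0 ≤ α → α < 1 → 0 < ε →
      ∃ Q₁ : S4 → ℝ, Smooth Q₁ ∧ (∀ x, x ∉ U → Q₁ x = Q x) ∧
        HolderLE α ε (fun x => Q₁ x - Q x) ∧ Stable k Q₁ := by
    intro Q p U k α ε hQ hcr hp hU h0 h1 hε
    obtain ⟨Q₁, g1, g2, g3, -, -, δ, B, hδ, g4⟩ :=
      multC rows_all k Q p U α (sm_of_contMDiff hQ) hcr hp hU h0 h1 ε hε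
    exact ⟨Q₁, contMDiff_of_sm g1, g2, g3, stable_of hδ g4⟩
  refine ⟨?_, ?_, h3⟩
  · intro Q k α ε hQ hpos h0 h1 hε
    obtain ⟨x₀, hx₀⟩ := hpos
    have hsm := sm_of_contMDiff hQ
    have hc := continuous_of_sm hsm
    obtain ⟨p, -, hp⟩ := isCompact_univ.exists_isMaxOn ⟨x₀, mem_univ _⟩ (hc.continuousOn (s := univ))
    have hmax : ∀ x, Q x ≤ Q p := fun x => hp (mem_univ x)
    have hcr : ∀ v, deriv Q p v = 0 := by
      have hloc : IsLocalMax (radialExt Q) (p : E5) := by
        filter_upwards [eventually_ne_zero (S4_ne_zero p)] with z hz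
        rw [radialExt_apply Q hz, radialExt_coe]
        exact hmax _
      intro v
      show fderiv ℝ (radialExt Q) (p : E5) v = 0
      rw [hloc.fderiv_eq_zero]
      rfl
    obtain ⟨Q₁, g1, -, g3, g4⟩ := h3 Q p univ k α ε hQ hcr (hx₀.trans_le (hmax x₀))
      univ_mem h0 h1 hε
    exact ⟨Q₁, g1, g3, g4⟩
  · obtain ⟨δ, hδ, h⟩ := H88.neg
    exact ⟨δ, hδ, fun Q hQ hH => h Q (sm_of_contMDiff hQ) hH⟩

end Pool.Agent.Results.MP_5f32e0_gt.GenericThreshold
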