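import Pool.Agent.Helper7_PQP.AllNE
import Pool.Agent.Helper7_PQP.Isol

/-!
# MP_5f32e0_gt: large and small powers of positive functions

`(S^4, g₀)` is the unit sphere of `ℝ^5`.  Let `Q > 0` be smooth.  We decide for generic `Q` whether the
powers `Q^t` are Paneitz curvatures of metrics pointwise conformal to `g₀`, for all large `t` and for
all small `t`.

LARGE POWERS.  Let `N` be the unique maximum point of `Q` and suppose that `Δ Q(p) ≠ 0` at the other
critical points `p`, and that `N` and those `p` with `Δ Q(p) < 0` are nondegenerate.  For all large `t`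
the function `Q^t` is a Paneitz curvature if and only if there is a critical point `p ≠ N` with
`Δ Q(p) < 0`, and then of at least as many metrics as there are such points.

SMALL POWERS.  Let `h(b)`, `|b| < 1`, be the mean of `log Q` with respect to the bubble with parameter
`b`, that is the harmonic extension of `log Q` to the hyperbolic space of dimension five (Klein
model).  If `h` has a nondegenerate critical point then `Q^t` is a Paneitz curvature for all small
`|t|`; if `h` has no critical point and `Δ Q ≠ 0` at the critical points of `Q` then `Q^t` is not a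
Paneitz curvature for all small `t ≠ 0`.

The proof (squad PQP: helper2, helper3, helper4, helper5, helper6, helper7, helper8, helper10,
helper11, helper15, helper17, helper19, helper20, helper21, helper22, helper23, helper24, helper25,
helper26, helper27, helper29, helper31, helper33, helper37, helper38, helper39, helper41, helper44,
helper46, helper47, helper48, helper49, helper50, helper51, helper53, helper55, helper56, helper58,
helper59, helper60, helper61, helper62, helper64, helper65, helper68, helper71, helper72, helper74,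
helper75, helper77, helper80, helper81, helper82, helper83, helper85, helper87, helper91, helper92,
helper94, helper98, and squad FLX).  EXISTENCE.  The equation is pulled back by the Moebius map with
parameter `b` near `p` and reduced, by a fixed point argument for the Green operator modulo first
spherical harmonics, to five equations for `b`; the radial one balances the Laplacian at `p`
(attractive or repulsive, of order `σ²`, `σ` the scale) with the far field of `Q^t`, of order
`σ⁴ e^{ct}`, and is solved by the Brouwer theorem on a box with exponentially small `σ`; different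
critical points give different solutions.  NON-EXISTENCE.  The density `f = Q^t e^{4u} / ∫` of a
solution satisfies the virial (Kazdan-Warner) identities, also for arbitrary vector fields as
inequalities.  They force all the mass to concentrate, for large `t`, in a ball with exponentially
small radius at a point `w` away from `N`, in whose balanced picture `f` is a bubble up to small
errors.  The identities for the parabolic conformal fields with the zero `N` bound the gradient of `Q` at
`w`, and the identity for the hyperbolic field from `w` to `N` gives `Δ (-log Q)(w) > 0` up to small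
errors: `w` is near a critical point `p ≠ N` with `Δ Q(p) < 0`.  The crucial point is that the part of
the mass near the maximum point `N`, which cannot be neglected, enters with a favourable sign.
SMALL POWERS.  The balanced solutions are uniformly bounded up to the limit `t = 0` unless they
concentrate, and concentration is excluded by `Δ Q ≠ 0` at the critical points; the limit of the
balanced parameters is a critical point of `h`.
-/

set_option autoImplicit false

open scoped InnerProductSpace Topology ContDiff Manifold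
open MeasureTheory Filter Set

noncomputable section

namespace Pool.Agent.Results.MP_5f32e0_gt.LargeAndSmallPowers

open Pool.Agent.Helper42_Paneitz

/-- Smooth functions on `S^4`. -/
def Smooth (f : S4 → ℝ) : Prop := ContMDiff (𝓡 4) 𝓘(ℝ, ℝ) ∞ f

/-- `p` is a critical point of `Q`: the derivative at `p` of the extension of `Q` which is constant on
rays vanishes. -/
def Crit (Q : S4 → ℝ) (p : S4) : Prop := ∀ v : E5, fderiv ℝ (radialExt Q) (p : E5) v = 0

/-- `p` is a nondegenerate critical point of `Q`: the second derivative of the extension constant on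
rays is a nondegenerate bilinear form on the tangent space at `p`, the vectors orthogonal to `p`. -/
def Nondeg (Q : S4 → ℝ) (p : S4) : Prop :=
  Crit Q p ∧ ∀ v : E5, ⟪(p : E5), v⟫_ℝ = 0 →
    (∀ w : E5, ⟪(p : E5), w⟫_ℝ = 0 → fderiv ℝ (fderiv ℝ (radialExt Q)) (p : E5) v w = 0) → v = 0

/-- The area measure of the unit sphere. -/
def area : Measure S4 := (volume : Measure E5).toSphere

/-- The equation `Δ² u - 2 Δ u = Q e^{4u} - 6` has at least `k` different smooth solutions. -/
def AtLeast (k : ℕ) (Q : S4 → ℝ) : Prop :=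
  ∃ u : Fin k → S4 → ℝ, Function.Injective u ∧
    ∀ i, Smooth (u i) ∧ ∀ x, paneitz (u i) x = Q x * Real.exp (4 * u i x) - 6

/-- The mean of `log Q` with respect to the probability measure with the density
`(1 - |b|²)² / (1 - <b, y>)⁴` relative to the normalised area, `|b| < 1`. -/
def harm (Q : S4 → ℝ) (b : E5) : ℝ :=
  (∫ y : S4, Real.log (Q y) * ((1 - ‖b‖ ^ 2) ^ 2 / (1 - ⟪b, (y : E5)⟫_ℝ) ^ 4) ∂area) /
    (area univ).toReal

/-- The critical points of `Q` different from `N` with negative Laplacian. -/
def Bub (Q : S4 → ℝ) (N : S4) : Set S4 := {p | p ≠ N ∧ Crit Q p ∧ sphLaplacian Q p < 0}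

open Pool.Agent.Helper82_Vir Pool.Agent.FLX Pool.Agent.PQP in
theorem harm_eq (Q : S4 → ℝ) : harm Q = HH Q := rfl

open Pool.Agent.Helper82_Vir Pool.Agent.FLX Pool.Agent.PQP in
theorem atLeast_of_atL {k : ℕ} {Q : S4 → ℝ} (h : AtL k Q) : AtLeast k Q := by
  obtain ⟨u, hu, hs⟩ := h
  exact ⟨u, hu, fun i => ⟨contMDiff_of_sm (hs i).1, (hs i).2⟩⟩

open Pool.Agent.Helper82_Vir Pool.Agent.FLX Pool.Agent.PQP in
theorem smooth_rpow {Q : S4 → ℝ} (hQ : Smooth Q) (hpos : ∀ x, 0 < Q x) (t : ℝ) :
    Smooth (fun x => Q x ^ t) := by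
  have h1 : Sm (fun x => t * Real.log (Q x)) :=
    (Pool.Agent.PQP.H7.sm_log (sm_of_contMDiff hQ) hpos).smul t
  have h2 : Sm (fun x => Real.exp (t * Real.log (Q x))) := sm_comp h1 Real.contDiff_exp
  have h3 : (fun x => Q x ^ t) = fun x => Real.exp (t * Real.log (Q x)) := by
    funext x
    rw [Real.rpow_def_of_pos (hpos x), mul_comm]
  rw [h3]
  exact contMDiff_of_sm h2

theorem isPaneitz_of_atLeast {k : ℕ} {Q : S4 → ℝ} (hQ : Smooth Q) (h : AtLeast k Q) (hk : 0 < k) :
    IsPaneitzCurvature Q := by
  obtain ⟨u, -, hs⟩ := h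
  exact ⟨hQ, u ⟨0, hk⟩, (hs ⟨0, hk⟩).1, (hs ⟨0, hk⟩).2⟩

open Pool.Agent.Helper82_Vir Pool.Agent.FLX Pool.Agent.PQP in
/-- (1) LARGE POWERS. Let `Q > 0` be smooth with a unique maximum point `N`, nondegenerate, such that
`Δ Q(p) ≠ 0` at all critical points `p ≠ N` and such that those with `Δ Q(p) < 0` are nondegenerate.
Then there are finitely many critical points `p ≠ N` with `Δ Q(p) < 0`, say `k`, and for all large `t`
the function `Q^t` is a Paneitz curvature if and only if `k ≥ 1`, and of at least `k` metrics.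

(2) The existence for large powers needs only the nondegenerate critical points `p` with
`Δ Q(p) < 0` and `Q(p) < max Q` themselves.

(3) SMALL POWERS. If the hyperbolic harmonic extension `h` of `log Q` has a nondegenerate critical
point then `Q^t` is a Paneitz curvature for all small `|t|`.

(4) If `h` has no critical point and `Δ Q ≠ 0` at the critical points of `Q`, then `Q^t` is not a Paneitz
curvature for all small `t ≠ 0`. -/
theorem result :
    (∀ (Q : S4 → ℝ) (N : S4), Smooth Q → (∀ x, 0 < Q x) → (∀ x, x ≠ N → Q x < Q N) →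
      Nondeg Q N →
      (∀ p, Crit Q p → p ≠ N → sphLaplacian Q p ≠ 0 ∧ (sphLaplacian Q p < 0 → Nondeg Q p)) →
      (Bub Q N).Finite ∧ ∃ T : ℝ, ∀ t : ℝ, T ≤ t →
        (IsPaneitzCurvature (fun x => Q x ^ t) ↔ (Bub Q N).Nonempty) ∧
        AtLeast (Bub Q N).ncard (fun x => Q x ^ t)) ∧
    (∀ (Q : S4 → ℝ) (F : Finset S4), Smooth Q → (∀ x, 0 < Q x) →
      (∀ p ∈ F, Nondeg Q p ∧ sphLaplacian Q p < 0 ∧ ∃ x, Q p < Q x) →
      ∃ T : ℝ, ∀ t : ℝ, T ≤ t → AtLeast F.card (fun x => Q x ^ t)) ∧
    (∀ (Q : S4 → ℝ) (b : E5), Smooth Q → (∀ x, 0 < Q x) → ‖b‖ < 1 → fderiv ℝ (harm Q) b = 0 →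
      (∀ v : E5, (∀ w : E5, fderiv ℝ (fderiv ℝ (harm Q)) b v w = 0) → v = 0) →
      ∃ τ : ℝ, 0 < τ ∧ ∀ t : ℝ, |t| ≤ τ → IsPaneitzCurvature (fun x => Q x ^ t)) ∧
    (∀ Q : S4 → ℝ, Smooth Q → (∀ x, 0 < Q x) → (∀ p, Crit Q p → sphLaplacian Q p ≠ 0) →
      (∀ b : E5, ‖b‖ < 1 → fderiv ℝ (harm Q) b ≠ 0) →
      ∃ τ : ℝ, 0 < τ ∧ ∀ t : ℝ, t ≠ 0 → |t| ≤ τ → ¬ IsPaneitzCurvature (fun x => Q x ^ t)) := by
  have h2 : ∀ (Q : S4 → ℝ) (F : Finset S4), Smooth Q → (∀ x, 0 < Q x) →
      (∀ p ∈ F, Nondeg Q p ∧ sphLaplacian Q p < 0 ∧ ∃ x, Q p < Q x) →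
      ∃ T : ℝ, ∀ t : ℝ, T ≤ t → AtLeast F.card (fun x => Q x ^ t) := by
    intro Q F hQ hpos hF
    obtain ⟨T, hT⟩ := Pool.Agent.PQP.AllNE.lex Q (sm_of_contMDiff hQ) hpos F hF
    exact ⟨T, fun t ht => atLeast_of_atL (hT t ht)⟩
  refine ⟨?_, h2, ?_, ?_⟩
  · intro Q N hQ hpos hmax hN hcr
    have hfin : (Bub Q N).Finite := Pool.Agent.PQP.H7.crit_finite (sm_of_contMDiff hQ) hN hcr
    obtain ⟨T₁, hT₁⟩ := h2 Q hfin.toFinset hQ hpos (by
      intro p hp
      have hp' : p ∈ Bub Q N := hfin.mem_toFinset.1 hp
      exact ⟨(hcr p hp'.2.1 hp'.1).2 hp'.2.2, hp'.2.2, N, hmax p hp'.1⟩)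
    have hcard : hfin.toFinset.card = (Bub Q N).ncard := (Set.ncard_eq_toFinset_card _ hfin).symm
    rw [hcard] at hT₁
    refine ⟨hfin, ?_⟩
    rcases (Bub Q N).eq_empty_or_nonempty with he | hne
    · obtain ⟨T₂, hT₂⟩ := Pool.Agent.PQP.AllNE.ln2 Q (sm_of_contMDiff hQ) hpos N hmax hN (by
        intro p hp hpN
        by_contra hlt
        have h3 : sphLaplacian Q p < 0 := lt_of_le_of_ne (not_lt.1 hlt) (hcr p hp hpN).1
        have h4 : p ∈ Bub Q N := ⟨hpN, hp, h3⟩
        rw [he] at h4
        exact h4)
      refine ⟨max T₁ T₂, fun t ht => ⟨⟨fun h => absurd h (hT₂ t ((le_max_right _ _).trans ht)),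
        fun h => ?_⟩, hT₁ t ((le_max_left _ _).trans ht)⟩⟩
      rw [he] at h
      exact absurd h Set.not_nonempty_empty
    · refine ⟨T₁, fun t ht => ⟨⟨fun _ => hne, fun _ => ?_⟩, hT₁ t ht⟩⟩
      exact isPaneitz_of_atLeast (smooth_rpow hQ hpos t) (hT₁ t ht)
        ((Set.ncard_pos hfin).2 hne)
  · intro Q b hQ hpos hb h1 h3
    exact Pool.Agent.PQP.AllNE.sex Q (sm_of_contMDiff hQ) hpos b hb h1 h3
  · intro Q hQ hpos hcr hh
    exact Pool.Agent.PQP.AllNE.sne Q (sm_of_contMDiff hQ) hpos hcr hh

end Pool.Agent.Results.MP_5f32e0_gt.LargeAndSmallPowers
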