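import Pool.Agent.Helper36_NGP.All

/-!
# MP_5f32e0_gt: sign changing functions as Paneitz curvatures

`(S^4, g₀)` is the unit sphere of `ℝ^5`; `Q` is smooth and may change sign.

(1) A two-point form of the Kazdan-Warner obstruction for a pair of conformal vector fields, one used
where `Q > 0` and the other where `Q < 0`.  If one of them is zero, nothing is assumed on the
corresponding set: the negative part may be arbitrary.

(2) Existence for sign changing functions: if `p` is a nondegenerate critical point of `Q₀`,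
`Q₀(p) > 0`, `Δ Q₀(p) ≠ 0`, then `Q₀ + t R` is a Paneitz curvature for large `t`, where `R` vanishes near `p`
and `∫ R(z) |z - p|^(-8) dz` has the sign of `-Δ Q₀(p)`; the far perturbation `t R` is large and of
arbitrary shape.  In a class of functions invariant under the reflection `2 pr_P - 1` only
nondegeneracy in `P` is needed.

(3) Together: let `q > 0` on `(c, 1]` and `q ≤ 0` on `[-1, c]` (nondegenerate where positive). If `q` is
monotone on `[c, 1]`, then no function which agrees with `q(x_4)` for `x_4 ≥ c` and is `≤ 0` elsewhere is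
a Paneitz curvature, whatever its negative part is.  If not, it becomes a Paneitz curvature as soon
as the negative part is large.

The proofs.  (1): helper59, helper82 (a virial identity for the density `Q e^{4u}`, whose kernel is
antisymmetric for conformal fields).  (2), (3): squads PQP and NGP (helper4, helper7, helper8, helper22,
helper27, helper29, helper36, helper37, helper46, helper47, helper49, helper50, helper51, helper53,
helper63, helper65, helper68, helper74, helper77, helper81, helper85, helper87 and squad FLX): the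
equation is pulled back by the Moebius map with parameter `b` near `p` and reduced, by a fixed point
argument for the Green operator modulo first spherical harmonics, to equations for `b` in `P`; the
radial one balances the Laplacian at `p` (order `δ²`, `δ` the scale of the bubble) against the far
integral (order `δ⁴ t`), the tangential ones are solved by nondegeneracy; Brouwer.  The reduced map
preserves `P` by uniqueness of the fixed point.
-/

set_option autoImplicit false

open scoped InnerProductSpace Topology ContDiff Manifold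
open MeasureTheory Filter Set

noncomputable section

namespace Pool.Agent.Results.MP_5f32e0_gt.SignChanging

open Pool.Agent.Helper42_Paneitz

/-- Smooth functions on `S^4`. -/
def Smooth (f : S4 → ℝ) : Prop := ContMDiff (𝓡 4) 𝓘(ℝ, ℝ) ∞ f

/-- The derivative of `f : S^4 → ℝ` at `x` in the direction `v ∈ ℝ^5`: the derivative of the
extension of `f` to `ℝ^5 \ {0}` which is constant on rays; for `f` smooth it is `<∇f(x), v>`. -/
def der (f : S4 → ℝ) (x : S4) (v : E5) : ℝ := fderiv ℝ (radialExt f) (x : E5) v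

/-- The second derivative of the extension constant on rays; at a critical point it is the Hessian
of `f` on tangent vectors. -/
def der2 (f : S4 → ℝ) (x : S4) (v w : E5) : ℝ :=
  fderiv ℝ (fderiv ℝ (radialExt f)) (x : E5) v w

/-- The area measure of the unit sphere. -/
def area : Measure S4 := (volume : Measure E5).toSphere

/-- The conformal vector fields of `S^4` (`A` skew): `x ↦ a - <a,x> x + A x`. -/
def field (a : E5) (A : E5 →L[ℝ] E5) (x : S4) : E5 :=
  a - ⟪a, (x : E5)⟫_ℝ • (x : E5) + A (x : E5)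

/-- `A` is skew-symmetric. -/
def Skew (A : E5 →L[ℝ] E5) : Prop := ∀ v : E5, ⟪A v, v⟫_ℝ = 0

/-- the two-point form of the conformal field: `ω(x, y) = <a, x - y> - <A x, y>` -/
def om (a : E5) (A : E5 →L[ℝ] E5) (x y : S4) : ℝ :=
  ⟪a, (x : E5) - (y : E5)⟫_ℝ - ⟪A (x : E5), (y : E5)⟫_ℝ

/-- `X Q ≥ 0` on `{Q > 0}`, `Y Q ≥ 0` on `{Q < 0}` and `ω_{X - Y}(x, y) ≥ 0` whenever
`Q x > 0 > Q y`, for `X = field a A` and `Y = field b B`. -/
def Weak (Q : S4 → ℝ) (a b : E5) (A B : E5 →L[ℝ] E5) : Prop :=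
  (∀ x, 0 < Q x → 0 ≤ der Q x (field a A x)) ∧ (∀ x, Q x < 0 → 0 ≤ der Q x (field b B x)) ∧
    ∀ x y, 0 < Q x → Q y < 0 → 0 ≤ om (a - b) (A - B) x y

/-- one of the inequalities of `Weak` is strict somewhere -/
def Strict (Q : S4 → ℝ) (a b : E5) (A B : E5 →L[ℝ] E5) : Prop :=
  (∃ x, 0 < Q x ∧ 0 < der Q x (field a A x)) ∨ (∃ x, Q x < 0 ∧ 0 < der Q x (field b B x)) ∨
    ∃ x y, 0 < Q x ∧ Q y < 0 ∧ 0 < om (a - b) (A - B) x y

/-- `Q` is invariant under the reflection `2 pr_P - 1`. -/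
def Invariant (P : Submodule ℝ E5) (Q : S4 → ℝ) : Prop :=
  ∀ x y : S4, (y : E5) = P.reflection (x : E5) → Q y = Q x

/-- `Q` is invariant under `(x_0, -x_1, -x_2, -x_3, x_4)`. -/
def Flip (Q : S4 → ℝ) : Prop :=
  ∀ x y : S4, (y : E5) 0 = (x : E5) 0 → (y : E5) 1 = -(x : E5) 1 → (y : E5) 2 = -(x : E5) 2 →
    (y : E5) 3 = -(x : E5) 3 → (y : E5) 4 = (x : E5) 4 → Q y = Q x

/-- `p` is a critical point of `f`, and the Hessian of `f` at `p` is nondegenerate on the tangent
vectors in `P`. -/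
def NondegIn (P : Submodule ℝ E5) (f : S4 → ℝ) (p : S4) : Prop :=
  (∀ v : E5, der f p v = 0) ∧ ∀ v ∈ P, ⟪(p : E5), v⟫_ℝ = 0 →
    (∀ w ∈ P, ⟪(p : E5), w⟫_ℝ = 0 → der2 f p v w = 0) → v = 0

/-- A smooth profile: positive on `(c, 1]`, nonpositive on `[-1, c]`, nondegenerate where positive. -/
structure Profile (q : ℝ → ℝ) (c : ℝ) : Prop where
  smooth : ContDiff ℝ ∞ q
  left : -1 < c
  right : c < 1
  pos : ∀ s : ℝ, c < s → s ≤ 1 → 0 < q s
  nonpos : ∀ s : ℝ, -1 ≤ s → s ≤ c → q s ≤ 0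
  pole : deriv q 1 ≠ 0
  nondeg : ∀ s : ℝ, c < s → s < 1 → deriv q s = 0 → deriv (deriv q) s ≠ 0

/-- `Q` is smooth, `Q = q(x_4)` for `x_4 ≥ c` and `Q ≤ 0` for `x_4 ≤ c` (arbitrary there). -/
def Extends (q : ℝ → ℝ) (c : ℝ) (Q : S4 → ℝ) : Prop :=
  Smooth Q ∧ (∀ x : S4, c ≤ (x : E5) 4 → Q x = q ((x : E5) 4)) ∧
    ∀ x : S4, (x : E5) 4 ≤ c → Q x ≤ 0

/-- `R ≤ 0` is smooth, not zero, zero for `x_4 ≥ c` and invariant under
`(x_0, -x_1, -x_2, -x_3, x_4)`. -/
def Far (c : ℝ) (R : S4 → ℝ) : Prop :=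
  Smooth R ∧ Flip R ∧ (∀ x, R x ≤ 0) ∧ (∀ x : S4, c ≤ (x : E5) 4 → R x = 0) ∧ ∃ x, R x ≠ 0

/-- (1) The two-field obstruction; (2) large far perturbations near a nondegenerate critical point;
(3) the zonal dichotomy: the positive part decides whether some (and then every large) negative part
gives a Paneitz curvature. -/
theorem result :
    (∀ (Q : S4 → ℝ) (a b : E5) (A B : E5 →L[ℝ] E5), Smooth Q → Skew A → Skew B →
      Weak Q a b A B → Strict Q a b A B → ¬ IsPaneitzCurvature Q) ∧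
    (∀ (P : Submodule ℝ E5) (Q₀ R : S4 → ℝ) (p : S4) (U : Set S4), Smooth Q₀ → Smooth R →
      Invariant P Q₀ → Invariant P R → (p : E5) ∈ P → NondegIn P Q₀ p → 0 < Q₀ p → U ∈ 𝓝 p →
      (∀ x ∈ U, R x = 0) →
      sphLaplacian Q₀ p * ∫ z, R z / (1 - ⟪(p : E5), (z : E5)⟫_ℝ) ^ 4 ∂area < 0 →
      ∃ T : ℝ, ∀ t : ℝ, T ≤ t → IsPaneitzCurvature (fun x => Q₀ x + t * R x)) ∧
    (∀ (q : ℝ → ℝ) (c : ℝ), Profile q c →
      ((∃ Q, Extends q c Q ∧ IsPaneitzCurvature Q) ↔ ∃ s, c < s ∧ s < 1 ∧ deriv q s = 0) ∧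
      ((∃ s, c < s ∧ s < 1 ∧ deriv q s = 0) → ∀ R, Far c R →
        ∃ T : ℝ, ∀ t : ℝ, T ≤ t → IsPaneitzCurvature (fun x => q ((x : E5) 4) + t * R x))) := by
  have hfar : ∀ (q : ℝ → ℝ) (c : ℝ), Profile q c → (∃ s, c < s ∧ s < 1 ∧ deriv q s = 0) →
      ∀ R : S4 → ℝ, Sm R →
        Pool.Agent.PQP.Inv Pool.Agent.PQP.P2 R → (∀ x, R x ≤ 0) →
        (∀ x : S4, c ≤ (x : E5) 4 → R x = 0) → (∃ x, R x ≠ 0) →
        ∃ T : ℝ, ∀ t : ℝ, T ≤ t → IsPaneitzCurvature (fun x => q ((x : E5) 4) + t * R x) := by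
    intro q c h hs R h1 h2 h3 h4 h5
    exact Pool.Agent.NGP.All.zne q c R h.smooth h.left h.right h.pos h.pole h.nondeg hs h1 h2 h3
      h4 h5
  refine ⟨?_, ?_, ?_⟩
  · intro Q a b A B hQ hA hB h hs
    obtain ⟨h1, h2, h3⟩ := h
    refine Pool.Agent.Helper59_Vir.two_field (sm_of_contMDiff hQ) a b hA hB h1 h2
      (fun x y hx hy => sub_nonneg.1 (h3 x y hx hy)) ?_
    rcases hs with h | h | ⟨x, y, hx, hy, hxy⟩
    · exact Or.inl h
    · exact Or.inr (Or.inl h)
    · exact Or.inr (Or.inr ⟨x, y, hx, hy, sub_pos.1 hxy⟩)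
  · intro P Q₀ R p U hQ hR hiQ hiR hp hnd hpos hU hRU hI
    exact Pool.Agent.NGP.All.sri P Q₀ R p U (sm_of_contMDiff hQ) (sm_of_contMDiff hR)
      (fun x => hiQ x _ rfl) (fun x => hiR x _ rfl) hp hnd hpos hU hRU hI
  · intro q c h
    refine ⟨⟨?_, fun hs => ?_⟩, fun hs R hR => ?_⟩
    · rintro ⟨Q, ⟨hQ, hQ1, hQ2⟩, hP⟩
      by_contra hno
      push Not at hno
      exact Pool.Agent.NGP.All.znn q c Q h.smooth h.left h.right h.pos
        (fun s h1 h2 => hno s h1 h2) (sm_of_contMDiff hQ) hQ1 hQ2 hP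
    · obtain ⟨r1, r2, r3, r4, r5⟩ := Pool.Agent.NGP.H36.rc_props c h.left Pool.Agent.NGP.All.znl
      obtain ⟨T, hT⟩ := hfar q c h hs (Pool.Agent.NGP.H36.Rc c) r1 r2 r3 r4 r5
      refine ⟨fun x => q ((x : E5) 4) + max T 0 * Pool.Agent.NGP.H36.Rc c x, ⟨?_, ?_, ?_⟩,
        hT _ (le_max_left _ _)⟩
      · exact (hT _ (le_max_left _ _)).1
      · intro x hx
        show q ((x : E5) 4) + max T 0 * Pool.Agent.NGP.H36.Rc c x = q ((x : E5) 4)
        rw [r4 x hx, mul_zero, add_zero]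
      · intro x hx
        show q ((x : E5) 4) + max T 0 * Pool.Agent.NGP.H36.Rc c x ≤ 0
        have h1 := h.nonpos ((x : E5) 4) (Pool.Agent.PQP.H71.coord_mem x).1 hx
        have h2 : max T 0 * Pool.Agent.NGP.H36.Rc c x ≤ 0 :=
          mul_nonpos_of_nonneg_of_nonpos (le_max_right _ _) (r3 x)
        linarith
    · obtain ⟨h1, h2, h3, h4, h5⟩ := hR
      exact hfar q c h hs R (sm_of_contMDiff h1) (Pool.Agent.PQP.FinZ.inv_of_flip h2) h3 h4 h5

end Pool.Agent.Results.MP_5f32e0_gt.SignChanging
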